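import Mathlib
import Pool.Agent.Lib_MP_270856_an.Approx
import Pool.Agent.Lib_MP_270856_an.Restrict
import Pool.Agent.Lib_MP_270856_an.LowerX2
import Pool.Agent.Lib_MP_270856_an.UpperY3

set_option autoImplicit false

open Classical Pool.Agent.Roe

namespace Pool.Agent.Results.MP_270856_an.DimensionRaise

/-- The Hilbert space `ℓ²(X)`. -/
def Ell2 (X : Type) : Type := lp (fun _ : X => ℂ) 2

noncomputable instance (X : Type) : NormedAddCommGroup (Ell2 X) := lp.normedAddCommGroup

noncomputable instance (X : Type) : InnerProductSpace ℂ (Ell2 X) := lp.instInnerProductSpace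

instance (X : Type) : CompleteSpace (Ell2 X) := lp.completeSpace

/-- The standard basis vector `δ_x` of `ℓ²(X)`. -/
noncomputable def delta {X : Type} (x : X) : Ell2 X :=
  (lp.single (E := fun _ : X => ℂ) 2 x (1 : ℂ) : lp (fun _ : X => ℂ) 2)

/-- The C*-algebra of the bounded operators on `ℓ²(X)`. -/
def Op (X : Type) : Type := Ell2 X →L[ℂ] Ell2 X

/-- The C*-algebra structure of the bounded operators (library instance). -/
noncomputable def opCStar (X : Type) : CStarAlgebra (Op X) :=
  instCStarAlgebraContinuousLinearMapComplexIdOfCompleteSpace (E := Ell2 X)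

noncomputable instance (X : Type) : CStarAlgebra (Op X) := opCStar X

/-- The matrix entry `⟨δ_x, T δ_y⟩` of the bounded operator `T`. -/
noncomputable def entry {X : Type} (T : Op X) (x y : X) : ℂ :=
  inner ℂ (delta x) ((show Ell2 X →L[ℂ] Ell2 X from T) (delta y))

/-- The bounded operator `T` on `ℓ²(X)` has finite propagation: the distances `d(x,y)` with
`⟨δ_x, T δ_y⟩ ≠ 0` are bounded. -/
def FinitePropagation {X : Type} [MetricSpace X] (T : Op X) : Prop :=
  ∃ R : ℝ, ∀ x y : X, entry T x y ≠ 0 → dist x y ≤ R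

/-- `X` is uniformly locally finite: for every `r` the number of points of the closed balls of
radius `r` is bounded. -/
def UniformlyLocallyFinite (X : Type) [MetricSpace X] : Prop :=
  ∀ r : ℝ, ∃ N : ℕ, ∀ x : X, (Metric.closedBall x r).encard ≤ N

/-- `AsdimLE X n`: for every `r > 0` the space `X` has a cover by sets of uniformly bounded
diameter such that every closed ball of radius `r` meets at most `n + 1` of these sets. -/
def AsdimLE (X : Type) [MetricSpace X] (n : ℕ) : Prop :=
  ∀ r : ℝ, 0 < r → ∃ U : Set (Set X), ⋃₀ U = Set.univ ∧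
    (∃ D : ℝ, ∀ A ∈ U, ∀ a ∈ A, ∀ b ∈ A, dist a b ≤ D) ∧
    ∀ x : X, {A ∈ U | (A ∩ Metric.closedBall x r).Nonempty}.encard ≤ n + 1

/-- The asymptotic dimension of `X`: the least `n` with `AsdimLE X n`, and `∞` if there is none. -/
noncomputable def asdim (X : Type) [MetricSpace X] : ℕ∞ := ⨅ n : {n : ℕ // AsdimLE X n}, (n.1 : ℕ∞)

section algebra

variable {X : Type}

theorem entry_eq_ent (T : Op X) (x y : X) : entry T x y = ent (show H2 X →L[ℂ] H2 X from T) x y :=
  rfl

theorem finitePropagation_iff [MetricSpace X] (T : Op X) :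
    FinitePropagation T ↔ ∃ R : ℝ, ∀ x y : X, R < dist x y → entry T x y = 0 := by
  constructor
  · rintro ⟨R, hR⟩
    refine ⟨R, fun x y h => ?_⟩
    by_contra h0
    exact absurd (hR x y h0) (not_le.2 h)
  · rintro ⟨R, hR⟩
    refine ⟨R, fun x y h => ?_⟩
    by_contra h0
    exact h (hR x y (not_le.1 h0))

theorem ent_mul_ne {S T : H2 X →L[ℂ] H2 X} {x y : X} (h : ent (S * T) x y ≠ 0) :
    ∃ z, ent S x z ≠ 0 ∧ ent T z y ≠ 0 := by
  by_contra hc
  push Not at hc
  apply h
  have h1 : ent (S * T) x y = inner ℂ (star S (bas x)) (T (bas y)) := by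
    unfold ent
    rw [ContinuousLinearMap.star_eq_adjoint, ContinuousLinearMap.adjoint_inner_left]
    rfl
  rw [h1, lp.inner_eq_tsum]
  have h2 : ∀ z : X, inner ℂ ((star S (bas x)) z) ((T (bas y)) z) = 0 := by
    intro z
    have h3 : (star S (bas x)) z = star (ent S x z) := by
      have : ent (star S) z x = (star S (bas x)) z := ent_eq _ _ _
      rw [← this]
      unfold ent
      rw [ContinuousLinearMap.star_eq_adjoint, ContinuousLinearMap.adjoint_inner_right]
      exact (inner_conj_symm _ _).symm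
    have h4 : (T (bas y)) z = ent T z y := (ent_eq _ _ _).symm
    rw [h3, h4]
    by_cases h5 : ent S x z = 0
    · rw [h5]; simp
    · rw [hc z h5]; simp
  rw [tsum_congr h2, tsum_zero]

theorem entry_mul_ne {S T : Op X} {x y : X} (h : entry (S * T) x y ≠ 0) :
    ∃ z, entry S x z ≠ 0 ∧ entry T z y ≠ 0 :=
  ent_mul_ne (S := (show H2 X →L[ℂ] H2 X from S)) (T := (show H2 X →L[ℂ] H2 X from T)) h

theorem entry_add (S T : Op X) (x y : X) : entry (S + T) x y = entry S x y + entry T x y :=
  inner_add_right (𝕜 := ℂ) (delta x) (DFunLike.coe (F := Ell2 X →L[ℂ] Ell2 X) S (delta y))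
    (DFunLike.coe (F := Ell2 X →L[ℂ] Ell2 X) T (delta y))

theorem entry_algebraMap (r : ℂ) {x y : X} (hne : x ≠ y) :
    entry (algebraMap ℂ (Op X) r) x y = 0 := by
  show ent (algebraMap ℂ (H2 X →L[ℂ] H2 X) r) x y = 0
  rw [ent_eq, Algebra.algebraMap_eq_smul_one]
  show (r • (bas y : H2 X)) x = 0
  rw [lp.coeFn_smul, Pi.smul_apply, bas_ne (Ne.symm hne), smul_zero]

theorem entry_star (S : Op X) (x y : X) : entry (star S) x y = star (entry S y x) := by
  show ent (star (show H2 X →L[ℂ] H2 X from S)) x y = star (ent (show H2 X →L[ℂ] H2 X from S) y x)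
  unfold ent
  rw [ContinuousLinearMap.star_eq_adjoint, ContinuousLinearMap.adjoint_inner_right]
  exact (inner_conj_symm _ _).symm

end algebra

/-- The *-algebra of the operators of finite propagation on `ℓ²(X)`. -/
noncomputable def finitePropagationAlgebra (X : Type) [MetricSpace X] :
    StarSubalgebra ℂ (Op X) where
  carrier := {T | FinitePropagation T}
  mul_mem' := by
    rintro S T ⟨R, hR⟩ ⟨R', hR'⟩
    refine ⟨R + R', fun x y h => ?_⟩
    obtain ⟨z, h1, h2⟩ := entry_mul_ne h
    exact (dist_triangle x z y).trans (add_le_add (hR x z h1) (hR' z y h2))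
  add_mem' := by
    rintro S T ⟨R, hR⟩ ⟨R', hR'⟩
    refine ⟨max R R', fun x y h => ?_⟩
    by_contra hc
    push Not at hc
    apply h
    have h1 : entry S x y = 0 := by
      by_contra h1
      exact absurd (hR x y h1) (not_le.2 ((le_max_left _ _).trans_lt hc))
    have h2 : entry T x y = 0 := by
      by_contra h2
      exact absurd (hR' x y h2) (not_le.2 ((le_max_right _ _).trans_lt hc))
    rw [entry_add, h1, h2, add_zero]
  algebraMap_mem' := by
    intro r
    refine ⟨0, fun x y h => ?_⟩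
    by_contra hc
    push Not at hc
    exact h (entry_algebraMap r (dist_pos.1 hc))
  star_mem' := by
    rintro S ⟨R, hR⟩
    refine ⟨R, fun x y h => ?_⟩
    rw [dist_comm]
    apply hR
    intro h0
    apply h
    rw [entry_star, h0, star_zero]

/-- The uniform Roe algebra of `X`: the norm closure of the algebra of the operators of finite
propagation. -/
noncomputable def uniformRoe (X : Type) [MetricSpace X] : StarSubalgebra ℂ (Op X) :=
  (finitePropagationAlgebra X).topologicalClosure

/-- The uniform Roe algebra of `X` embeds into that of `Y`: there is an isometric *-homomorphism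
`Φ : B(ℓ²(X)) → B(ℓ²(Y))` of the algebras of the bounded operators which maps the uniform Roe
algebra of `X` into the uniform Roe algebra of `Y`. -/
def Embeds (X Y : Type) [MetricSpace X] [MetricSpace Y] : Prop :=
  ∃ Φ : Op X →⋆ₙₐ[ℂ] Op Y, (∀ T : Op X, ‖Φ T‖ = ‖T‖) ∧ ∀ T ∈ uniformRoe X, Φ T ∈ uniformRoe Y

theorem restrict (X Y : Type) [MetricSpace X] [MetricSpace Y]
    (Φ0 : Op X →⋆ₙₐ[ℂ] Op Y) (hc : Continuous Φ0)
    (hi : ∀ T, ‖Φ0 T‖ = ‖T‖)
    (hprop : ∀ T : Op X, (∃ R : ℝ, ∀ a b : X, R < dist a b → entry T a b = 0) →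
      ∀ ε : ℝ, 0 < ε → ∃ S : Op Y,
        (∃ R : ℝ, ∀ a b : Y, R < dist a b → entry S a b = 0) ∧ ‖Φ0 T - S‖ < ε) :
    Embeds X Y := by
  have hmem1 : ∀ T ∈ finitePropagationAlgebra X, Φ0 T ∈ uniformRoe Y := by
    intro T hT
    unfold uniformRoe
    rw [← SetLike.mem_coe, StarSubalgebra.topologicalClosure_coe, Metric.mem_closure_iff]
    intro ε hε
    obtain ⟨S, hS1, hS2⟩ := hprop T ((finitePropagation_iff T).1 hT) ε hε
    exact ⟨S, (finitePropagation_iff S).2 hS1, by rw [dist_eq_norm]; exact hS2⟩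
  have hmem3 : ∀ T ∈ uniformRoe X, Φ0 T ∈ uniformRoe Y := by
    intro T hT
    unfold uniformRoe at hT
    rw [← SetLike.mem_coe, StarSubalgebra.topologicalClosure_coe] at hT
    have h1 : Set.MapsTo Φ0 (finitePropagationAlgebra X : Set (Op X))
        (uniformRoe Y) := fun x hx => hmem1 x hx
    have h2 := map_mem_closure hc hT h1
    have h3 : IsClosed (uniformRoe Y : Set (Op Y)) :=
      StarSubalgebra.isClosed_topologicalClosure _
    rwa [h3.closure_eq] at h2
  exact ⟨Φ0, hi, hmem3⟩

/-- From families to multiplicity. -/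
theorem asdimLE_of_families {Y : Type} [MetricSpace Y] {n : ℕ}
    (H : ∀ R : ℝ, 0 < R → ∃ U : Fin (n + 1) → Set (Set Y),
        (∃ D : ℝ, ∀ i, ∀ A ∈ U i, ∀ a ∈ A, ∀ b ∈ A, dist a b ≤ D) ∧
        (∀ z : Y, ∃ i, ∃ A ∈ U i, z ∈ A) ∧
        (∀ i, ∀ A ∈ U i, ∀ B ∈ U i, A ≠ B → ∀ a ∈ A, ∀ b ∈ B, R < dist a b)) :
    AsdimLE Y n := by
  intro r hr
  obtain ⟨U, ⟨D, hD⟩, hcov, hdis⟩ := H (2 * r) (by linarith)
  refine ⟨⋃ i, U i, ?_, ⟨D, ?_⟩, ?_⟩
  · rw [Set.eq_univ_iff_forall]
    intro z
    obtain ⟨i, A, hA, hz⟩ := hcov z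
    exact ⟨A, Set.mem_iUnion.2 ⟨i, hA⟩, hz⟩
  · intro A hA a ha b hb
    obtain ⟨i, hi⟩ := Set.mem_iUnion.1 hA
    exact hD i A hi a ha b hb
  · intro x
    have h1 : ∀ A : {A // A ∈ {A ∈ ⋃ i, U i | (A ∩ Metric.closedBall x r).Nonempty}},
        ∃ i : Fin (n + 1), A.1 ∈ {A ∈ U i | (A ∩ Metric.closedBall x r).Nonempty} := by
      rintro ⟨A, hA, hne⟩
      obtain ⟨i, hi⟩ := Set.mem_iUnion.1 hA
      exact ⟨i, hi, hne⟩
    choose f hf using h1
    have h2 : ∀ i : Fin (n + 1),
        {A ∈ U i | (A ∩ Metric.closedBall x r).Nonempty}.Subsingleton := by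
      rintro i A ⟨hA, a, ha, ha'⟩ B ⟨hB, b, hb, hb'⟩
      by_contra hne
      have h3 := hdis i A hA B hB hne a ha b hb
      have h4 : dist a b ≤ 2 * r := by
        rw [Metric.mem_closedBall] at ha' hb'
        have := dist_triangle_right a b x
        linarith
      linarith
    have hinj : Function.Injective f := by
      intro A B hAB
      apply Subtype.ext
      have hB := hf B
      rw [← hAB] at hB
      exact h2 (f A) (hf A) hB
    have h3 := ENat.card_le_card_of_injective hinj
    rw [ENat.card_coe_set_eq] at h3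
    simpa using h3

/-- From multiplicity to families, in dimension at most one. -/
theorem families_of_asdimLE_one {X : Type} [MetricSpace X] (H : AsdimLE X 1) :
    ∀ R : ℝ, 0 < R → ∃ U : Fin (1 + 1) → Set (Set X),
        (∃ D : ℝ, ∀ i, ∀ A ∈ U i, ∀ a ∈ A, ∀ b ∈ A, dist a b ≤ D) ∧
        (∀ z : X, ∃ i, ∃ A ∈ U i, z ∈ A) ∧
        (∀ i, ∀ A ∈ U i, ∀ B ∈ U i, A ≠ B → ∀ a ∈ A, ∀ b ∈ B, R < dist a b) := by
  intro R hR
  obtain ⟨W, hcov, ⟨D, hD⟩, hmul⟩ := H (2 * R) (by linarith)
  have hmem : ∀ x : X, ∃ A ∈ W, x ∈ A := fun x => by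
    have : x ∈ ⋃₀ W := by rw [hcov]; trivial
    exact this
  -- three different members never meet one ball
  have h3 : ∀ x : X, ∀ A ∈ W, ∀ B ∈ W, ∀ C ∈ W, A ≠ B → A ≠ C → B ≠ C →
      (A ∩ Metric.closedBall x (2 * R)).Nonempty → (B ∩ Metric.closedBall x (2 * R)).Nonempty →
      (C ∩ Metric.closedBall x (2 * R)).Nonempty → False := by
    intro x A hA B hB C hC hAB hAC hBC h1 h2 h4
    have h5 : ({A, B, C} : Set (Set X)) ⊆
        {A ∈ W | (A ∩ Metric.closedBall x (2 * R)).Nonempty} := by
      intro E hE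
      rcases hE with rfl | rfl | rfl
      · exact ⟨hA, h1⟩
      · exact ⟨hB, h2⟩
      · exact ⟨hC, h4⟩
    have h6 := (Set.encard_le_encard h5).trans (hmul x)
    rw [Set.encard_insert_of_notMem (by simp [hAB, hAC]), Set.encard_pair hBC] at h6
    norm_num at h6
  -- the member sets seen from a point
  set M : X → Set (Set X) := fun x => {A ∈ W | (A ∩ Metric.closedBall x R).Nonempty} with hM
  have hself : ∀ x, ∃ A ∈ M x, x ∈ A := fun x => by
    obtain ⟨A, hA, hx⟩ := hmem x
    exact ⟨A, ⟨hA, x, hx, Metric.mem_closedBall_self hR.le⟩, hx⟩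
  have hbig : ∀ x y, dist x y ≤ R → ∀ A ∈ M y, (A ∩ Metric.closedBall x (2 * R)).Nonempty := by
    rintro x y hxy A ⟨_, a, ha, ha'⟩
    refine ⟨a, ha, ?_⟩
    rw [Metric.mem_closedBall] at ha' ⊢
    have := dist_triangle a y x
    rw [dist_comm y x] at this
    linarith
  have hbig' : ∀ x, ∀ A ∈ M x, (A ∩ Metric.closedBall x (2 * R)).Nonempty := fun x A hA =>
    hbig x x (by rw [dist_self]; exact hR.le) A hA
  have hdiam : ∀ x y, M x = M y → dist x y ≤ D + 2 * R := by
    intro x y hxy
    obtain ⟨A, hA, hx⟩ := hself x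
    have hA' : A ∈ M y := hxy ▸ hA
    obtain ⟨hAW, a, ha, ha'⟩ := hA'
    have h1 := hD A hAW x hx a ha
    rw [Metric.mem_closedBall] at ha'
    have := dist_triangle x a y
    linarith
  refine ⟨fun i => {S | ∃ x, ((M x).Subsingleton ↔ i = 0) ∧ S = {y | M y = M x}},
    ⟨D + 2 * R, ?_⟩, ?_, ?_⟩
  · rintro i S ⟨x, _, rfl⟩ a ha b hb
    exact hdiam a b (ha.trans hb.symm)
  · intro z
    by_cases hz : (M z).Subsingleton
    · exact ⟨0, {y | M y = M z}, ⟨z, by simp [hz], rfl⟩, rfl⟩
    · exact ⟨1, {y | M y = M z}, ⟨z, by simp [hz], rfl⟩, rfl⟩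
  · rintro i S ⟨x, hx, rfl⟩ T ⟨y, hy, rfl⟩ hST a ha b hb
    by_contra hlt
    push Not at hlt
    have h1 : M a = M x := ha
    have h2 : M b = M y := hb
    have hab : M a ≠ M b := by
      intro hab
      apply hST
      rw [← h1, ← h2, hab]
    rw [← h1] at hx
    rw [← h2] at hy
    by_cases hi : i = 0
    · -- both see only one member
      replace hx := hx.2 hi
      replace hy := hy.2 hi
      obtain ⟨A, hA, haA⟩ := hself a
      have hA' : A ∈ M b := by
        refine ⟨hA.1, a, haA, ?_⟩
        rw [Metric.mem_closedBall]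
        exact hlt
      apply hab
      ext C
      constructor
      · intro hC
        rw [hx hC hA]
        exact hA'
      · intro hC
        rw [hy hC hA']
        exact hA
    · -- both see at least two members
      replace hx : ¬ (M a).Subsingleton := fun h => hi (hx.1 h)
      replace hy : ¬ (M b).Subsingleton := fun h => hi (hy.1 h)
      rw [Set.not_subsingleton_iff] at hx hy
      obtain ⟨A, hA, B, hB, hAB⟩ := hx
      obtain ⟨C, hC, E, hE, hCE⟩ := hy
      have key : ∀ F, F ∈ M a ∨ F ∈ M b → F = A ∨ F = B := by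
        intro F hF
        by_contra hc
        push Not at hc
        have hFW : F ∈ W := by rcases hF with h | h <;> exact h.1
        have hFb : (F ∩ Metric.closedBall a (2 * R)).Nonempty := by
          rcases hF with h | h
          · exact hbig' a F h
          · exact hbig a b hlt F h
        exact h3 a A hA.1 B hB.1 F hFW hAB hc.1.symm hc.2.symm (hbig' a A hA) (hbig' a B hB) hFb
      apply hab
      have hMa : M a = {A, B} := by
        ext F
        constructor
        · intro hF
          exact key F (Or.inl hF)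
        · rintro (rfl | rfl)
          · exact hA
          · exact hB
      have hMb : M b = {A, B} := by
        have hsub : M b ⊆ {A, B} := fun F hF => key F (Or.inr hF)
        apply Set.Subset.antisymm hsub
        have hC' := hsub hC
        have hE' := hsub hE
        rintro F (rfl | rfl)
        · rcases hC' with h | h
          · exact h ▸ hC
          · rcases hE' with h' | h'
            · exact h' ▸ hE
            · exact absurd (h.trans h'.symm) hCE
        · rcases hC' with h | h
          · rcases hE' with h' | h'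
            · exact absurd (h.trans h'.symm) hCE
            · exact h' ▸ hE
          · exact h ▸ hC
      rw [hMa, hMb]

theorem asdimLE_mono {X : Type} [MetricSpace X] {m n : ℕ} (h : m ≤ n) (H : AsdimLE X m) :
    AsdimLE X n := by
  intro r hr
  obtain ⟨U, h1, h2, h3⟩ := H r hr
  refine ⟨U, h1, h2, fun x => (h3 x).trans ?_⟩
  gcongr

/-- **Dimension is not monotone under embeddings of uniform Roe algebras.**  There are uniformly
locally finite metric spaces `X` and `Y` (with integer distances) and an isometric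
*-homomorphism from the algebra of the bounded operators on `ℓ²(X)` to that of `Y` which maps the
uniform Roe algebra of `X` into that of `Y`, although `asdim Y ≤ 1` and `asdim X ≥ 2`. -/
theorem result : ∃ (X Y : Type) (_ : MetricSpace X) (_ : MetricSpace Y),
    UniformlyLocallyFinite X ∧ UniformlyLocallyFinite Y ∧
    (∀ x x' : X, ∃ n : ℕ, dist x x' = n) ∧ (∀ y y' : Y, ∃ n : ℕ, dist y y' = n) ∧
    Embeds X Y ∧ asdim Y ≤ 1 ∧ 2 ≤ asdim X := by
  let mX := cX.metric
  let mY := cY.metric
  have hulf : ∀ (Z : Type) [MetricSpace Z], (∀ r : ℝ, ∃ N : ℕ, ∀ x : Z,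
      (Metric.closedBall x r).Finite ∧ (Metric.closedBall x r).ncard ≤ N) →
      UniformlyLocallyFinite Z := by
    intro Z _ h r
    obtain ⟨N, hN⟩ := h r
    refine ⟨N, fun x => ?_⟩
    rw [← (hN x).1.cast_ncard_eq]
    exact_mod_cast (hN x).2
  refine ⟨XPt, XPt × Bits, mX, mY, hulf _ (cX.ulf cX_bound), hulf _ (cY.ulf cY_bound),
    fun x x' => ⟨cX.d x x', rfl⟩, fun y y' => ⟨cY.d y y', rfl⟩, ?_, ?_, ?_⟩
  · refine restrict XPt (XPt × Bits) Phi Phi_continuous ?_ ?_
    · intro T
      exact NonUnitalStarAlgHom.norm_map Phi Phi_injective T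
    · rintro T ⟨R, hR⟩ ε hε
      obtain ⟨S, ⟨m, hm⟩, hS⟩ := approx T ⌊R⌋₊
        (fun x x' hE => hR x x' (by
          by_contra hcon
          exact hE (cX.E_of_dist_le (not_lt.1 hcon)))) hε
      refine ⟨S, ⟨m, fun a b hab => hm a b (fun hE => ?_)⟩, hS⟩
      exact absurd (cY.dist_le_of_E hE) (not_le.2 hab)
  · exact iInf_le_of_le ⟨1, asdimLE_of_families Y_asdim_one⟩ (by simp)
  · refine le_iInf ?_
    rintro ⟨n, hn⟩
    by_contra hc
    push Not at hc
    have h1 : n ≤ 1 := by
      have : (n : ℕ∞) < 2 := hc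
      have h2 : n < 2 := by exact_mod_cast this
      omega
    exact X_not_asdim_one (families_of_asdimLE_one (asdimLE_mono h1 hn))

end Pool.Agent.Results.MP_270856_an.DimensionRaise
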